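import Pool.Agent.KS6_51.PS.Nec2

set_option autoImplicit false

/-!
# MP_0cd67c_ag: the Pólya–Schur theorem for zero-sum polynomials

The finite criterion is proved for all `n` and `d` in both directions, and the real sequences whose
diagonal maps preserve real-rootedness of zero-sum polynomials of every degree are determined.

The definitions `ZeroSum`, `OnlyRealRoots`, `g0`, `SameSign`, `IsPreserver`, `AllSameSign` are those
of the imported library modules; `Diag γ T` (`Pool.Agent.KS6_51.PS.Dia`) says that `T` is the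
diagonal map with multipliers `γ`.
-/

open Filter Topology Finset Polynomial Pool.Agent.KS6_51.PS
open Pool.Agent.Results.MP_0cd67c_ag.ZeroSumPreservers
open Pool.Agent.Results.MP_31565c_an.Full

namespace Pool.Agent.Results.MP_0cd67c_ag.ZeroSumPolyaSchur

/-- The function `exp (α z) ∏ (1 + x_k z)`. -/
noncomputable def LPfun (α : ℝ) (x : ℕ → ℝ) (z : ℂ) : ℂ :=
  Complex.exp ((α : ℂ) * z) * ∏' k, (1 + (x k : ℂ) * z)

/-- The power series `∑ (k - 1) γ_k z ^ k / k!` converges to `F z` for every complex `z`. -/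
def SymbolIs (γ : ℕ → ℝ) (F : ℂ → ℂ) : Prop :=
  ∀ z : ℂ, HasSum (fun k : ℕ => ((((k : ℝ) - 1) * γ k / (k.factorial : ℝ) : ℝ) : ℂ) * z ^ k) (F z)

/-- There are a sign `ε = ± 1`, a real `c`, a real `α ≥ 0` and a summable sequence `x_k ≥ 0` such
that the series `∑ (k - 1) γ_k z ^ k / k!` is either
`c (1 - (α + ∑ x_k) ε z) exp (α ε z) ∏ (1 + x_k ε z)` or, for some `m ≥ 2`,
`c z ^ m exp (α ε z) ∏ (1 + x_k ε z)`. -/
def HasSymbol (γ : ℕ → ℝ) : Prop :=
  ∃ (ε c α : ℝ) (x : ℕ → ℝ), (ε = 1 ∨ ε = -1) ∧ 0 ≤ α ∧ (∀ k, 0 ≤ x k) ∧ Summable x ∧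
    (SymbolIs γ (fun z => (c : ℂ) * (1 - ((α + ∑' k, x k : ℝ) : ℂ) * ((ε : ℂ) * z)) *
        LPfun α x ((ε : ℂ) * z)) ∨
      ∃ m : ℕ, 2 ≤ m ∧ SymbolIs γ (fun z => (c : ℂ) * z ^ m * LPfun α x ((ε : ℂ) * z)))

lemma eps_sq {ε : ℝ} (hε : ε = 1 ∨ ε = -1) (i : ℕ) : ((ε : ℂ) ^ i) * (ε : ℂ) ^ i = 1 := by
  rcases hε with rfl | rfl
  · simp
  · rw [← mul_pow]; simp

lemma to_symbol (γ : ℕ → ℝ) (ε : ℝ) (hε : ε = 1 ∨ ε = -1) (F : ℂ → ℂ)
    (h : ∀ z : ℂ, HasSum (fun i => ((ε ^ i * bco γ i : ℝ) : ℂ) * z ^ i) (F z)) :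
    SymbolIs γ (fun z => F ((ε : ℂ) * z)) := by
  intro z
  have h1 := h ((ε : ℂ) * z)
  have h2 : (fun i => ((ε ^ i * bco γ i : ℝ) : ℂ) * ((ε : ℂ) * z) ^ i) =
      fun k : ℕ => ((((k : ℝ) - 1) * γ k / (k.factorial : ℝ) : ℝ) : ℂ) * z ^ k := by
    funext i
    have := eps_sq hε i
    unfold bco
    rw [Complex.ofReal_mul, Complex.ofReal_pow, mul_pow]
    linear_combination (((((i : ℝ) - 1) * γ i / (i.factorial : ℝ) : ℝ) : ℂ) * z ^ i) * this
  rwa [h2] at h1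

lemma of_symbol (γ : ℕ → ℝ) (ε : ℝ) (F : ℂ → ℂ) (h : SymbolIs γ F) (z : ℂ) :
    HasSum (fun i => ((bco (fun i => ε ^ i * γ i) i : ℝ) : ℂ) * z ^ i) (F ((ε : ℂ) * z)) := by
  have h1 := h ((ε : ℂ) * z)
  have h2 : (fun i => ((bco (fun i => ε ^ i * γ i) i : ℝ) : ℂ) * z ^ i) =
      fun k : ℕ => ((((k : ℝ) - 1) * γ k / (k.factorial : ℝ) : ℝ) : ℂ) * ((ε : ℂ) * z) ^ k := by
    funext i
    unfold bco
    push_cast
    rw [mul_pow]
    ring
  rwa [h2]

lemma symbol_of_nec (γ : ℕ → ℝ) (h : ∀ N : ℕ, ∃ n ≥ N, ∃ d ≥ N,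
      ∀ T : ZeroSum n →ₗ[ℝ] ZeroSum d, Diag γ T → IsPreserver T) : HasSymbol γ := by
  obtain ⟨ε, c, α, s, x, m, hε, hα, hx, hxs, hadm, hsum⟩ := nec_lim γ h
  have h1 := to_symbol γ ε hε _ hsum
  rcases hadm with ⟨hm, hs⟩ | ⟨hm, hs⟩
  · refine ⟨ε, c, α, x, hε, hα, hx, hxs, Or.inl fun z => ?_⟩
    have h2 := h1 z
    beta_reduce
    beta_reduce at h2
    rw [hm, hs] at h2
    have h3 : (c : ℂ) * (((ε : ℂ) * z) ^ 0 * ((1 - ((α + ∑' k, x k : ℝ) : ℂ) * ((ε : ℂ) * z)) *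
        Gf α x ((ε : ℂ) * z))) = (c : ℂ) * (1 - ((α + ∑' k, x k : ℝ) : ℂ) * ((ε : ℂ) * z)) *
        LPfun α x ((ε : ℂ) * z) := by
      unfold Gf LPfun; ring
    rwa [h3] at h2
  · refine ⟨ε, c * ε ^ m, α, x, hε, hα, hx, hxs, Or.inr ⟨m, hm, fun z => ?_⟩⟩
    have h2 := h1 z
    beta_reduce
    beta_reduce at h2
    rw [hs] at h2
    have h3 : (c : ℂ) * (((ε : ℂ) * z) ^ m * ((1 - ((0 : ℝ) : ℂ) * ((ε : ℂ) * z)) *
        Gf α x ((ε : ℂ) * z))) = ((c * ε ^ m : ℝ) : ℂ) * z ^ m * LPfun α x ((ε : ℂ) * z) := by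
      unfold Gf LPfun; push_cast; ring
    rwa [h3] at h2

lemma suff_of_symbol (γ : ℕ → ℝ) (h : HasSymbol γ) (n : ℕ) (hn : 1 ≤ n)
    (T : ZeroSum n →ₗ[ℝ] ZeroSum n) (hT : Diag γ T) : IsPreserver T := by
  rcases Nat.lt_or_ge n 2 with hn2 | hn2
  · intro g _
    rw [splits_iff_only]
    exact Splits.of_natDegree_le_one ((T g).2.1.trans (by omega))
  obtain ⟨ε, c, α, x, hε, hα, hx, hxs, hsym⟩ := h
  -- the flipped multipliers
  have key : ∀ g : ZeroSum n, (g : ℝ[X]).Splits →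
      ((diagMap (fun i => ε ^ i * γ i) n n hn g : ZeroSum n) : ℝ[X]).Splits := by
    intro g hg
    have he : ∀ z : ℂ, (ε : ℂ) * ((ε : ℂ) * z) = z := by
      intro z
      have := eps_sq hε 1
      rw [pow_one] at this
      rw [← mul_assoc, this, one_mul]
    rcases hsym with hs | ⟨m, hm, hs⟩
    · refine suff_lim n hn2 c α x hα hx hxs 0 (α + ∑' k, x k) (Or.inl ⟨rfl, rfl⟩) _ ?_ _
        (diag_diagMap _ _ _ _) g hg
      intro z
      have h1 := of_symbol γ ε _ hs z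
      have h3 : (c : ℂ) * (1 - ((α + ∑' k, x k : ℝ) : ℂ) * ((ε : ℂ) * ((ε : ℂ) * z))) *
          LPfun α x ((ε : ℂ) * ((ε : ℂ) * z)) = (c : ℂ) * (z ^ 0 *
          ((1 - ((α + ∑' k, x k : ℝ) : ℂ) * z) * Gf α x z)) := by
        rw [he]; unfold Gf LPfun; ring
      rwa [h3] at h1
    · refine suff_lim n hn2 (c * ε ^ m) α x hα hx hxs m 0 (Or.inr ⟨hm, rfl⟩) _ ?_ _
        (diag_diagMap _ _ _ _) g hg
      intro z
      have h1 := of_symbol γ ε _ hs z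
      have h3 : (c : ℂ) * ((ε : ℂ) * z) ^ m * LPfun α x ((ε : ℂ) * ((ε : ℂ) * z)) =
          ((c * ε ^ m : ℝ) : ℂ) * (z ^ m * ((1 - ((0 : ℝ) : ℂ) * z) * Gf α x z)) := by
        rw [he]; unfold Gf LPfun; push_cast; ring
      rwa [h3] at h1
  intro g hg
  rw [splits_iff_only] at hg ⊢
  rcases hε with rfl | rfl
  · have h1 : Diag γ (diagMap (fun i => (1 : ℝ) ^ i * γ i) n n hn) := by
      have := diag_diagMap (fun i => (1 : ℝ) ^ i * γ i) n n hn
      simpa using this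
    rw [hT.unique hn h1]
    exact key g hg
  · refine flip_splits hn2 (γ := fun i => (-1 : ℝ) ^ i * γ i) (γ' := γ) ?_
      (diag_diagMap _ _ _ _) hT g (key g hg)
    intro i
    rw [← mul_assoc, ← mul_pow]
    simp

/-- **Main theorem (the Pólya–Schur theorem for zero-sum polynomials).**

(0) For all `n, d ≥ 1` and all multipliers `γ` there is exactly one diagonal map
`T : ZeroSum n → ZeroSum d` with these multipliers.

(1) For all `n, d ≥ 1` and every such map `T`: if `T g₀` has only real roots, `d - 1` of which have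
the same sign, then `T` preserves real-rootedness; if `γ 0 ≠ 0` this condition is necessary and
sufficient; if `γ 0 = 0`, then `T` preserves real-rootedness if and only if `T g₀` has only real
roots and all of them have the same sign.

(2) For every sequence `γ` of reals the following are equivalent: all diagonal maps
`ZeroSum n → ZeroSum d`, `1 ≤ n ≤ d`, with multipliers `γ` preserve real-rootedness; the diagonal
map `ZeroSum n → ZeroSum d` preserves it for some arbitrarily large `n` and `d`; the series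
`∑ (k - 1) γ_k z ^ k / k!` is one of the entire functions in `HasSymbol`. -/
theorem result :
    (∀ (γ : ℕ → ℝ) (n d : ℕ), 1 ≤ n → 1 ≤ d → ∃! T : ZeroSum n →ₗ[ℝ] ZeroSum d, Diag γ T) ∧
    (∀ (n d : ℕ) (hn : 1 ≤ n), 1 ≤ d → ∀ (γ : ℕ → ℝ) (T : ZeroSum n →ₗ[ℝ] ZeroSum d), Diag γ T →
      (OnlyRealRoots (T ⟨g0 n, g0_mem n hn⟩ : ℝ[X]) →
        SameSign d (T ⟨g0 n, g0_mem n hn⟩ : ℝ[X]) → IsPreserver T) ∧
      (γ 0 ≠ 0 → (IsPreserver T ↔ (OnlyRealRoots (T ⟨g0 n, g0_mem n hn⟩ : ℝ[X]) ∧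
        SameSign d (T ⟨g0 n, g0_mem n hn⟩ : ℝ[X])))) ∧
      (γ 0 = 0 → (IsPreserver T ↔ (OnlyRealRoots (T ⟨g0 n, g0_mem n hn⟩ : ℝ[X]) ∧
        AllSameSign (T ⟨g0 n, g0_mem n hn⟩ : ℝ[X]))))) ∧
    (∀ γ : ℕ → ℝ, List.TFAE [
      ∀ n d : ℕ, 1 ≤ n → n ≤ d → ∀ T : ZeroSum n →ₗ[ℝ] ZeroSum d, Diag γ T → IsPreserver T,
      ∀ N : ℕ, ∃ n ≥ N, ∃ d ≥ N, ∀ T : ZeroSum n →ₗ[ℝ] ZeroSum d, Diag γ T → IsPreserver T,
      HasSymbol γ]) := by
  refine ⟨existsUnique_diag, ?_, ?_⟩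
  · intro n d hn hd γ T hT
    refine ⟨fun h1 h2 => ?_, gen_iff n d hn hd γ T hT⟩
    exact ZeroSumPreservers.result n d hn hd T ⟨γ, hT⟩ h1 h2
  · intro γ
    tfae_have 1 → 2 := by
      intro h N
      exact ⟨N + 1, by omega, N + 1, by omega, h (N + 1) (N + 1) (by omega) le_rfl⟩
    tfae_have 2 → 3 := symbol_of_nec γ
    tfae_have 3 → 1 := by
      intro h n d hn hnd T hT
      rw [pres_shift n d hn (by omega) γ T hT]
      have h1 : Diag γ (diagMap (fun i => if i ≤ d then γ i else 0) n n hn) := by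
        intro i hi hi1 m hm
        rw [diag_diagMap (fun i => if i ≤ d then γ i else 0) n n hn i hi hi1 m hm,
          if_pos hi, if_pos hi]
        beta_reduce
        rw [if_pos (by omega)]
      exact suff_of_symbol γ h n hn _ h1
    tfae_finish

end Pool.Agent.Results.MP_0cd67c_ag.ZeroSumPolyaSchur
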